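import Mathlib
import Pool.Agent.H800R2.Front
import Pool.Agent.X165.PS3

set_option autoImplicit false

/-!
# A smooth bounded domain in which the reflected wave fronts of no point become dense

For each `n ≥ 2` there are a bounded domain `Ω` in `ℝⁿ` with `C^∞` boundary and two nonempty open
subsets `V₁`, `V₂` of `Ω` such that for every point `P` of `Ω` one of `V₁`, `V₂` is missed by the
fronts from `P` at all times. So for no point `P` of `Ω` do the fronts from `P` become dense.

The domain: `e` is a unit vector, `y = ⟪e, x⟫`, `ρ = ‖x‖² - y²`. The outer wall is the surface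
`ρ/2 + θ(y) = 1` with `θ(y)` smooth, even and equal to `(|y| - 1/4)²` for `|y| ≥ 1/4`: two half
ellipsoids joined by a tube. The obstacle is the solid `y² + (ρ-1)²(4ρ+1)/24 ≤ 1/16`. Its upper
rim `y = 1/4`, `ρ = 1` is the focal sphere of the upper half ellipsoid, its lower rim that of the
lower one; the two pockets `V₁`, `V₂` are the parts of `Ω` with `ρ < 1` and `0 < y < 1/4`,
respectively `-1/4 < y < 0`. Light that is not emitted in the upper pocket or above it never
enters the upper pocket (`Pool.Agent.X165.PS.photon_out`), and similarly for the lower one.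
-/

namespace Pool.Agent.Results.MP_67b65f_an.NoPointFillsRoom

open MeasureTheory Set Pool.Agent.H800R2 Pool.Agent.X165.PS
open Pool.Agent.X165.PR (hgt)
open scoped RealInnerProductSpace

/-- **Answer to Q1 (negated form), in every dimension, for every point.** For each `n ≥ 2` there
are a bounded domain `Ω` in `ℝⁿ` with `C^∞` boundary and two nonempty open subsets `V₁`, `V₂` of
`Ω` such that for every point `P` of `Ω` the fronts from `P` miss `V₁` at all times or miss `V₂`
at all times; in particular for no point `P` of `Ω` do the fronts from `P` become dense. -/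
theorem result (n : ℕ) (hn : 2 ≤ n) :
    ∃ Ω V₁ V₂ : Set (Euc n), IsSmoothDomain Ω ∧ 0 < volume Ω ∧
      (IsOpen V₁ ∧ V₁.Nonempty ∧ V₁ ⊆ Ω) ∧ (IsOpen V₂ ∧ V₂.Nonempty ∧ V₂ ⊆ Ω) ∧
      (∀ P ∈ Ω, (∀ t : ℝ, front Ω P t ∩ V₁ = ∅) ∨ ∀ t : ℝ, front Ω P t ∩ V₂ = ∅) ∧
      ∀ P ∈ Ω, ¬ FrontsBecomeDense Ω P := by
  classical
  set e : Euc n := EuclideanSpace.single (⟨0, by omega⟩ : Fin n) (1 : ℝ) with hed
  set f : Euc n := EuclideanSpace.single (⟨1, by omega⟩ : Fin n) (1 : ℝ) with hfd
  have he : ‖e‖ = 1 := by simp [hed]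
  have hf : ‖f‖ = 1 := by simp [hfd]
  have hef : ⟪e, f⟫ = 0 := by simp [hed, hfd, EuclideanSpace.inner_single_left]
  have he' : ‖-e‖ = 1 := by rw [norm_neg, he]
  have hdom := isSmoothDomain_Room he hf hef
  have h1 : IsOpen (Pocket e) ∧ (Pocket e).Nonempty ∧ Pocket e ⊆ Room e :=
    ⟨isOpen_Pocket e, nonempty_Pocket he, inter_subset_left⟩
  have h2 : IsOpen (Pocket (-e)) ∧ (Pocket (-e)).Nonempty ∧ Pocket (-e) ⊆ Room e :=
    ⟨isOpen_Pocket (-e), nonempty_Pocket he', by rw [← Room_neg]; exact inter_subset_left⟩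
  have hdark : ∀ P ∈ Room e, (∀ t : ℝ, front (Room e) P t ∩ Pocket e = ∅) ∨
      ∀ t : ℝ, front (Room e) P t ∩ Pocket (-e) = ∅ := by
    intro P hP
    rcases le_total (hgt e P) 0 with h | h
    · exact Or.inl (dark he hP h)
    · right
      rw [← Room_neg]
      refine dark he' (by rw [Room_neg]; exact hP) ?_
      rw [hgt_neg]
      linarith
  have hnot : ∀ P : Euc n, ∀ V : Set (Euc n), (IsOpen V ∧ V.Nonempty ∧ V ⊆ Room e) →
      (∀ t : ℝ, front (Room e) P t ∩ V = ∅) → ¬ FrontsBecomeDense (Room e) P := by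
    rintro P V ⟨hVo, ⟨x, hx⟩, hVs⟩ hV hd
    obtain ⟨ε, hε, hball⟩ := Metric.isOpen_iff.1 hVo x hx
    obtain ⟨T, hT⟩ := hd ε hε
    obtain ⟨q, hq, hxq⟩ := hT T le_rfl x (hVs hx)
    have hqV : q ∈ V := hball (by rw [Metric.mem_ball, dist_comm]; exact hxq)
    have := hV T
    rw [eq_empty_iff_forall_notMem] at this
    exact this q ⟨hq, hqV⟩
  refine ⟨Room e, Pocket e, Pocket (-e), hdom, ?_, h1, h2, hdark, fun P hP => ?_⟩
  · exact hdom.isOpen.measure_pos _ hdom.isConnected.nonempty
  · rcases hdark P hP with h | h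
    · exact hnot P _ h1 h
    · exact hnot P _ h2 h

end Pool.Agent.Results.MP_67b65f_an.NoPointFillsRoom
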